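import Pool.Agent.H69.L8.H742R2.Kk.Defs

set_option autoImplicit false

open MeasureTheory Set Filter Topology ENNReal NNReal Metric

namespace Pool.Agent.H742R2.Kk

namespace TTaux

lemma mul_le_half (a b : ℝ≥0∞) : a * b ≤ (a ^ 2 + b ^ 2) / 2 := by
  have h := ENNReal.young_inequality a b Real.HolderConjugate.two_two
  have e2 : ENNReal.ofReal 2 = 2 := by norm_num
  rw [e2] at h
  have ea : a ^ (2 : ℝ) = a ^ 2 := by exact_mod_cast ENNReal.rpow_natCast a 2
  have eb : b ^ (2 : ℝ) = b ^ 2 := by exact_mod_cast ENNReal.rpow_natCast b 2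
  rw [ea, eb] at h
  rw [ENNReal.add_div]
  exact h

/-- Cauchy-Schwarz, squared form -/
lemma cs_sq {Q : Type*} [MeasurableSpace Q] (ρ : Measure Q) (f g : Q → ℝ≥0∞)
    (hf : Measurable f) (hg : Measurable g) :
    (∫⁻ q, f q * g q ∂ρ) ^ 2 ≤ (∫⁻ q, f q ^ 2 ∂ρ) * ∫⁻ q, g q ^ 2 ∂ρ := by
  have h := ENNReal.lintegral_mul_le_Lp_mul_Lq ρ Real.HolderConjugate.two_two hf.aemeasurable
    hg.aemeasurable
  have ef : ∀ q, f q ^ (2 : ℝ) = f q ^ 2 := fun q => by exact_mod_cast ENNReal.rpow_natCast (f q) 2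
  have eg : ∀ q, g q ^ (2 : ℝ) = g q ^ 2 := fun q => by exact_mod_cast ENNReal.rpow_natCast (g q) 2
  simp only [ef, eg] at h
  have h2 := pow_le_pow_left' h 2
  refine h2.trans (le_of_eq ?_)
  rw [mul_pow, ← ENNReal.rpow_natCast, ← ENNReal.rpow_natCast, ← ENNReal.rpow_mul,
    ← ENNReal.rpow_mul]
  norm_num

end TTaux

open TTaux

theorem tt_star {Ω Q : Type*} [MeasurableSpace Ω] [MeasurableSpace Q]
    (μ : Measure Ω) (ρ : Measure Q) [SigmaFinite μ] [SFinite ρ]
    (K : Ω → Q → ℝ≥0∞) (hK : Measurable (Function.uncurry K)) (B : ℝ≥0∞)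
    (hB : ∀ ω, ∫⁻ ω', ∫⁻ q, K ω q * K ω' q ∂ρ ∂μ ≤ B)
    (h : Q → ℝ≥0∞) (hh : Measurable h) :
    ∫⁻ ω, (∫⁻ q, K ω q * h q ∂ρ) ^ 2 ∂μ ≤ B * ∫⁻ q, h q ^ 2 ∂ρ := by
  set T : Ω → ℝ≥0∞ := fun ω => ∫⁻ q, K ω q * h q ∂ρ with hT
  have hTm : Measurable T := by
    apply Measurable.lintegral_prod_right'
      (f := fun p : Ω × Q => Function.uncurry K p * h p.2)
    exact hK.mul (hh.comp measurable_snd)
  -- bound for bounded functions
  have key : ∀ G : Ω → ℝ≥0∞, Measurable G → (∫⁻ ω, G ω ^ 2 ∂μ ≠ ⊤) → (∀ ω, G ω ≤ T ω) →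
      ∫⁻ ω, G ω ^ 2 ∂μ ≤ B * ∫⁻ q, h q ^ 2 ∂ρ := by
    intro G hG hfin hGT
    set X := ∫⁻ ω, G ω ^ 2 ∂μ with hX
    set S : Q → ℝ≥0∞ := fun q => ∫⁻ ω, K ω q * G ω ∂μ with hS
    have hSm : Measurable S := by
      apply Measurable.lintegral_prod_left'
        (f := fun p : Ω × Q => Function.uncurry K p * G p.1)
      exact hK.mul (hG.comp measurable_fst)
    have h1 : X ≤ ∫⁻ q, h q * S q ∂ρ := by
      calc X ≤ ∫⁻ ω, G ω * T ω ∂μ := by
            apply lintegral_mono
            intro ω
            simp only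
            rw [pow_two]
            gcongr
            exact hGT ω
        _ = ∫⁻ ω, ∫⁻ q, G ω * (K ω q * h q) ∂ρ ∂μ := by
            apply lintegral_congr
            intro ω
            rw [lintegral_const_mul]
            exact (hK.comp measurable_prodMk_left).mul hh
        _ = ∫⁻ q, ∫⁻ ω, G ω * (K ω q * h q) ∂μ ∂ρ := by
            apply lintegral_lintegral_swap
            exact ((hG.comp measurable_fst).mul (hK.mul (hh.comp measurable_snd))).aemeasurable
        _ = ∫⁻ q, h q * S q ∂ρ := by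
            apply lintegral_congr
            intro q
            rw [hS, ← lintegral_const_mul]
            · apply lintegral_congr
              intro ω
              ring
            · exact (hK.comp measurable_prodMk_right).mul hG
    have h2 : ∫⁻ q, S q ^ 2 ∂ρ ≤ B * X := by
      have hKK : Measurable (fun p : Ω × Ω => ∫⁻ q, K p.1 q * K p.2 q ∂ρ) := by
        apply Measurable.lintegral_prod_right'
          (f := fun p : (Ω × Ω) × Q => K p.1.1 p.2 * K p.1.2 p.2)
        exact (hK.comp ((measurable_fst.comp measurable_fst).prodMk measurable_snd)).mul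
          (hK.comp ((measurable_snd.comp measurable_fst).prodMk measurable_snd))
      have e1 : ∀ q, S q ^ 2 = ∫⁻ ω, ∫⁻ ω', (K ω q * K ω' q) * (G ω * G ω') ∂μ ∂μ := by
        intro q
        have hKq : Measurable (fun ω => K ω q) := hK.comp measurable_prodMk_right
        rw [pow_two, hS]
        simp only
        have hKG : Measurable (fun ω => K ω q * G ω) := hKq.mul hG
        rw [← lintegral_mul_const _ hKG]
        apply lintegral_congr
        intro ω
        rw [← lintegral_const_mul _ hKG]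
        apply lintegral_congr
        intro ω'
        ring
      have m3 : Measurable (fun p : (Ω × Ω) × Q =>
          (K p.1.1 p.2 * K p.1.2 p.2) * (G p.1.1 * G p.1.2)) := by
        exact ((hK.comp ((measurable_fst.comp measurable_fst).prodMk measurable_snd)).mul
          (hK.comp ((measurable_snd.comp measurable_fst).prodMk measurable_snd))).mul
          ((hG.comp (measurable_fst.comp measurable_fst)).mul
            (hG.comp (measurable_snd.comp measurable_fst)))
      have e2 : ∫⁻ q, S q ^ 2 ∂ρ =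
          ∫⁻ ω, ∫⁻ ω', (∫⁻ q, K ω q * K ω' q ∂ρ) * (G ω * G ω') ∂μ ∂μ := by
        calc ∫⁻ q, S q ^ 2 ∂ρ =
            ∫⁻ q, ∫⁻ ω, ∫⁻ ω', (K ω q * K ω' q) * (G ω * G ω') ∂μ ∂μ ∂ρ :=
              lintegral_congr e1
          _ = ∫⁻ ω, ∫⁻ q, ∫⁻ ω', (K ω q * K ω' q) * (G ω * G ω') ∂μ ∂ρ ∂μ := by
              apply lintegral_lintegral_swap
              apply Measurable.aemeasurable
              apply Measurable.lintegral_prod_right'
                (f := fun p : (Q × Ω) × Ω => (K p.1.2 p.1.1 * K p.2 p.1.1) * (G p.1.2 * G p.2))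
              exact m3.comp (((measurable_snd.comp measurable_fst).prodMk measurable_snd).prodMk
                (measurable_fst.comp measurable_fst))
          _ = ∫⁻ ω, ∫⁻ ω', ∫⁻ q, (K ω q * K ω' q) * (G ω * G ω') ∂ρ ∂μ ∂μ := by
              apply lintegral_congr
              intro ω
              apply lintegral_lintegral_swap
              apply Measurable.aemeasurable
              exact m3.comp ((measurable_const.prodMk measurable_snd).prodMk measurable_fst)
          _ = _ := by
              apply lintegral_congr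
              intro ω
              apply lintegral_congr
              intro ω'
              rw [lintegral_mul_const]
              exact (hK.comp measurable_prodMk_left).mul (hK.comp measurable_prodMk_left)
      rw [e2]
      have e3 : ∫⁻ ω, ∫⁻ ω', (∫⁻ q, K ω q * K ω' q ∂ρ) * (G ω ^ 2 / 2) ∂μ ∂μ ≤ B * X / 2 := by
        calc _ = ∫⁻ ω, (∫⁻ ω', (∫⁻ q, K ω q * K ω' q ∂ρ) ∂μ) * (G ω ^ 2 / 2) ∂μ := by
              apply lintegral_congr
              intro ω
              rw [lintegral_mul_const]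
              exact hKK.comp measurable_prodMk_left
          _ ≤ ∫⁻ ω, B * (G ω ^ 2 / 2) ∂μ := by
              apply lintegral_mono
              intro ω
              simp only
              gcongr
              exact hB ω
          _ = B * X / 2 := by
              rw [lintegral_const_mul _ ((hG.pow_const 2).div_const 2)]
              simp only [div_eq_mul_inv]
              rw [lintegral_mul_const _ (hG.pow_const 2), mul_assoc]
      have e4 : ∫⁻ ω, ∫⁻ ω', (∫⁻ q, K ω q * K ω' q ∂ρ) * (G ω' ^ 2 / 2) ∂μ ∂μ ≤ B * X / 2 := by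
        rw [lintegral_lintegral_swap]
        · refine le_trans (le_of_eq ?_) e3
          apply lintegral_congr
          intro ω
          apply lintegral_congr
          intro ω'
          congr 1
          apply lintegral_congr
          intro q
          rw [mul_comm]
        · apply Measurable.aemeasurable
          exact hKK.mul (((hG.pow_const 2).div_const 2).comp measurable_snd)
      calc ∫⁻ ω, ∫⁻ ω', (∫⁻ q, K ω q * K ω' q ∂ρ) * (G ω * G ω') ∂μ ∂μ
          ≤ ∫⁻ ω, ∫⁻ ω', ((∫⁻ q, K ω q * K ω' q ∂ρ) * (G ω ^ 2 / 2) +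
            (∫⁻ q, K ω q * K ω' q ∂ρ) * (G ω' ^ 2 / 2)) ∂μ ∂μ := by
            apply lintegral_mono
            intro ω
            apply lintegral_mono
            intro ω'
            simp only
            rw [← mul_add, ← ENNReal.add_div]
            gcongr
            exact mul_le_half _ _
        _ = (∫⁻ ω, ∫⁻ ω', (∫⁻ q, K ω q * K ω' q ∂ρ) * (G ω ^ 2 / 2) ∂μ ∂μ) +
            ∫⁻ ω, ∫⁻ ω', (∫⁻ q, K ω q * K ω' q ∂ρ) * (G ω' ^ 2 / 2) ∂μ ∂μ := by
            rw [← lintegral_add_left]
            · apply lintegral_congr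
              intro ω
              rw [lintegral_add_left]
              exact (hKK.comp measurable_prodMk_left).mul_const _
            · apply Measurable.lintegral_prod_right'
                (f := fun p : Ω × Ω => (∫⁻ q, K p.1 q * K p.2 q ∂ρ) * (G p.1 ^ 2 / 2))
              exact hKK.mul (((hG.pow_const 2).div_const 2).comp measurable_fst)
        _ ≤ B * X / 2 + B * X / 2 := add_le_add e3 e4
        _ = B * X := ENNReal.add_halves _
    have h3 : X ^ 2 ≤ (∫⁻ q, h q ^ 2 ∂ρ) * (B * X) := by
      calc X ^ 2 ≤ (∫⁻ q, h q * S q ∂ρ) ^ 2 := pow_le_pow_left' h1 2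
        _ ≤ (∫⁻ q, h q ^ 2 ∂ρ) * ∫⁻ q, S q ^ 2 ∂ρ := cs_sq ρ h S hh hSm
        _ ≤ _ := by gcongr
    by_cases hX0 : X = 0
    · rw [hX0]; exact zero_le
    · have h4 : X * X ≤ (B * ∫⁻ q, h q ^ 2 ∂ρ) * X := by
        rw [← pow_two]
        refine h3.trans (le_of_eq ?_)
        ring
      exact (ENNReal.mul_le_mul_iff_left hX0 hfin).1 h4
  -- exhaustion
  set G : ℕ → Ω → ℝ≥0∞ := fun N => (spanningSets μ N).indicator (fun ω => min (T ω) N) with hG
  have hGm : ∀ N, Measurable (G N) := fun N =>
    (hTm.min measurable_const).indicator (measurableSet_spanningSets μ N)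
  have hGT : ∀ N ω, G N ω ≤ T ω := by
    intro N ω
    simp only [hG]
    by_cases hω : ω ∈ spanningSets μ N
    · rw [Set.indicator_of_mem hω]; exact min_le_left _ _
    · rw [Set.indicator_of_notMem hω]; exact zero_le
  have hGfin : ∀ N, ∫⁻ ω, G N ω ^ 2 ∂μ ≠ ⊤ := by
    intro N
    have h1 : ∫⁻ ω, G N ω ^ 2 ∂μ ≤ ∫⁻ ω, (spanningSets μ N).indicator
        (fun _ => ((N : ℝ≥0∞)) ^ 2) ω ∂μ := by
      apply lintegral_mono
      intro ω
      simp only [hG]
      by_cases hω : ω ∈ spanningSets μ N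
      · rw [Set.indicator_of_mem hω, Set.indicator_of_mem hω]
        exact pow_le_pow_left' (min_le_right _ _) 2
      · rw [Set.indicator_of_notMem hω, Set.indicator_of_notMem hω]
        simp
    rw [lintegral_indicator_const (measurableSet_spanningSets μ N)] at h1
    refine ne_top_of_le_ne_top ?_ h1
    exact ENNReal.mul_ne_top (by simp) (measure_spanningSets_lt_top μ N).ne
  have hmono : Monotone (fun N ω => G N ω ^ 2) := by
    intro N M hNM ω
    apply pow_le_pow_left'
    simp only [hG]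
    by_cases hω : ω ∈ spanningSets μ N
    · rw [Set.indicator_of_mem hω, Set.indicator_of_mem (monotone_spanningSets μ hNM hω)]
      exact min_le_min_left _ (by exact_mod_cast hNM)
    · rw [Set.indicator_of_notMem hω]; exact zero_le
  have hsup : ∀ ω, T ω ^ 2 ≤ ⨆ N, G N ω ^ 2 := by
    intro ω
    obtain ⟨N0, hN0⟩ : ∃ N0, ω ∈ spanningSets μ N0 := by
      have : ω ∈ ⋃ i, spanningSets μ i := by rw [iUnion_spanningSets]; trivial
      exact mem_iUnion.1 this
    have hval : ∀ N, N0 ≤ N → (min (T ω) N) ^ 2 ≤ ⨆ N, G N ω ^ 2 := by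
      intro N hN
      refine le_trans (le_of_eq ?_) (le_iSup (fun N => G N ω ^ 2) N)
      simp only [hG]
      rw [Set.indicator_of_mem (monotone_spanningSets μ hN hN0)]
    by_cases htop : T ω = ⊤
    · have : (⨆ N, G N ω ^ 2) = ⊤ := by
        by_contra hne
        obtain ⟨n, hn⟩ := ENNReal.exists_nat_gt hne
        have h1 := hval (max N0 (n + 1)) (le_max_left _ _)
        rw [htop, min_eq_right le_top] at h1
        have h2 : (n : ℝ≥0∞) ≤ ((max N0 (n + 1) : ℕ) : ℝ≥0∞) ^ 2 := by
          have h3 : n ≤ (max N0 (n + 1)) ^ 2 := by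
            have h4 : n + 1 ≤ max N0 (n + 1) := le_max_right _ _
            nlinarith
          exact_mod_cast h3
        exact absurd (lt_of_le_of_lt (h2.trans h1) hn) (lt_irrefl _)
      rw [this]; exact le_top
    · obtain ⟨n, hn⟩ := ENNReal.exists_nat_gt htop
      have h1 := hval (max N0 n) (le_max_left _ _)
      rw [min_eq_left] at h1
      · exact h1
      · refine hn.le.trans ?_
        exact_mod_cast le_max_right N0 n
  calc ∫⁻ ω, T ω ^ 2 ∂μ ≤ ∫⁻ ω, ⨆ N, G N ω ^ 2 ∂μ := lintegral_mono hsup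
    _ = ⨆ N, ∫⁻ ω, G N ω ^ 2 ∂μ :=
        lintegral_iSup (fun N => (hGm N).pow_const 2) hmono
    _ ≤ B * ∫⁻ q, h q ^ 2 ∂ρ := iSup_le fun N => key (G N) (hGm N) (hGfin N) (hGT N)

end Pool.Agent.H742R2.Kk
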