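import Pool.Agent.H69.L8.H742R2.Kk.Defs

set_option autoImplicit false

open MeasureTheory Set Filter Topology ENNReal NNReal Metric

namespace Pool.Agent.H742R2.Kk

theorem ins_apply_zero {k : ℕ} (r : ℝ) (z : E k) : (ins r z) 0 = r := by
  simp [ins]

theorem ins_apply_succ {k : ℕ} (r : ℝ) (z : E k) (i : Fin k) : (ins r z) i.succ = z i := by
  simp [ins]

theorem ins_eta {k : ℕ} (p : E (k + 1)) : ins (p 0) (tl p) = p := by
  ext i
  refine Fin.cases ?_ (fun j => ?_) i
  · rw [ins_apply_zero]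
  · rw [ins_apply_succ]; simp [tl]

theorem ins_zero {k : ℕ} (r : ℝ) (z : E k) : (ins r z) 0 = r := ins_apply_zero r z

theorem tl_ins {k : ℕ} (r : ℝ) (z : E k) : tl (ins r z) = z := by
  ext i
  simp [tl, ins]

theorem inner_ins {k : ℕ} (r s : ℝ) (z w : E k) :
    inner ℝ (ins r z) (ins s w) = r * s + inner ℝ z w := by
  simp only [PiLp.inner_apply, Fin.sum_univ_succ, ins_apply_zero, ins_apply_succ]
  congr 1
  simp [mul_comm]

theorem inner_emb {k : ℕ} (θ σ τ : ℝ) (p q : E (k + 1)) :
    inner ℝ (emb θ σ p) (emb θ τ q) = σ * τ + inner ℝ p q := by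
  have h1 : inner ℝ p q = p 0 * q 0 + inner ℝ (tl p) (tl q) := by
    conv_lhs => rw [← ins_eta p, ← ins_eta q]
    rw [inner_ins]
  rw [emb, emb, inner_ins, inner_ins, h1]
  have := Real.sin_sq_add_cos_sq θ
  linear_combination (p 0 * q 0 + σ * τ) * this

theorem measurable_ins {k : ℕ} : Measurable (fun x : ℝ × E k => ins x.1 x.2) := by
  unfold ins
  apply (WithLp.measurable_toLp 2 (Fin (k + 1) → ℝ)).comp
  rw [measurable_pi_iff]
  intro i
  refine Fin.cases ?_ (fun j => ?_) i
  · simpa using measurable_fst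
  · simp only [Fin.cons_succ]
    exact (measurable_pi_apply j).comp ((WithLp.measurable_ofLp 2 (Fin k → ℝ)).comp measurable_snd)

theorem measurable_apply {n : ℕ} (i : Fin n) : Measurable (fun p : E n => p i) :=
  (measurable_pi_apply i).comp (WithLp.measurable_ofLp 2 (Fin n → ℝ))

theorem measurable_tl {k : ℕ} : Measurable (fun p : E (k + 1) => tl p) := by
  unfold tl
  apply (WithLp.measurable_toLp 2 (Fin k → ℝ)).comp
  rw [measurable_pi_iff]
  exact fun i => measurable_apply _

theorem measurable_emb {k : ℕ} :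
    Measurable (fun x : ℝ × ℝ × E (k + 1) => emb x.1 x.2.1 x.2.2) := by
  unfold emb
  have h0 : Measurable (fun x : ℝ × ℝ × E (k + 1) => x.2.2 0) :=
    (measurable_apply 0).comp measurable_snd.snd
  have hc : Measurable (fun x : ℝ × ℝ × E (k + 1) => Real.cos x.1) := measurable_fst.cos
  have hs : Measurable (fun x : ℝ × ℝ × E (k + 1) => Real.sin x.1) := measurable_fst.sin
  have hσ : Measurable (fun x : ℝ × ℝ × E (k + 1) => x.2.1) := measurable_snd.fst
  have ht : Measurable (fun x : ℝ × ℝ × E (k + 1) => tl x.2.2) :=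
    measurable_tl.comp measurable_snd.snd
  exact measurable_ins.comp (((h0.mul hc).sub (hσ.mul hs)).prodMk
    (measurable_ins.comp (((h0.mul hs).add (hσ.mul hc)).prodMk ht)))

theorem ins_add {k : ℕ} (r s : ℝ) (z w : E k) : ins (r + s) (z + w) = ins r z + ins s w := by
  ext i
  refine Fin.cases ?_ (fun j => ?_) i
  · simp [ins_apply_zero]
  · simp [ins_apply_succ]

theorem ins_smul {k : ℕ} (c r : ℝ) (z : E k) : ins (c * r) (c • z) = c • ins r z := by
  ext i
  refine Fin.cases ?_ (fun j => ?_) i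
  · simp [ins_apply_zero]
  · simp [ins_apply_succ]

theorem tl_add {k : ℕ} (p q : E (k + 1)) : tl (p + q) = tl p + tl q := by
  ext i; simp [tl]

theorem tl_smul {k : ℕ} (c : ℝ) (p : E (k + 1)) : tl (c • p) = c • tl p := by
  ext i; simp [tl]

theorem emb_add {k : ℕ} (θ σ τ : ℝ) (p q : E (k + 1)) :
    emb θ (σ + τ) (p + q) = emb θ σ p + emb θ τ q := by
  unfold emb
  rw [← ins_add, ← ins_add, tl_add]
  simp only [PiLp.add_apply]
  congr 1
  · ring
  · congr 1; ring

theorem emb_smul {k : ℕ} (θ σ c : ℝ) (p : E (k + 1)) :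
    emb θ (c * σ) (c • p) = c • emb θ σ p := by
  unfold emb
  rw [← ins_smul, ← ins_smul, tl_smul]
  simp only [PiLp.smul_apply, smul_eq_mul]
  congr 1
  · ring
  · congr 1; ring

/-- The splitting `p = (y, z)` preserves the measure. -/
theorem measurePreserving_ins {k : ℕ} :
    MeasurePreserving (fun x : ℝ × E k => ins x.1 x.2) volume volume := by
  have h1 : MeasurePreserving (fun x : ℝ × E k => (x.1, x.2.ofLp)) volume volume :=
    (MeasurePreserving.id (volume : Measure ℝ)).prod (PiLp.volume_preserving_ofLp (Fin k))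
  have h2 := (volume_preserving_piFinSuccAbove (fun _ : Fin (k + 1) => ℝ) 0).symm
  have h3 := (PiLp.volume_preserving_toLp (Fin (k + 1))).comp (h2.comp h1)
  convert! h3 using 1
  funext x
  unfold ins
  simp only [Function.comp_apply]
  congr 1
  ext i
  refine Fin.cases ?_ (fun j => ?_) i
  · simp [MeasurableEquiv.piFinSuccAbove]
  · simp [MeasurableEquiv.piFinSuccAbove]

/-- Tonelli for the splitting `p = (y, z)`. -/
theorem lintegral_ins {k : ℕ} {f : E (k + 1) → ℝ≥0∞} (hf : Measurable f) :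
    ∫⁻ p, f p = ∫⁻ y : ℝ, ∫⁻ z : E k, f (ins y z) := by
  rw [← (measurePreserving_ins (k := k)).lintegral_comp hf]
  exact lintegral_prod _ (hf.comp measurable_ins).aemeasurable

/-- Rotations of the plane preserve the measure. -/
theorem measurePreserving_rot (θ : ℝ) :
    MeasurePreserving (fun x : ℝ × ℝ => (x.1 * Real.cos θ - x.2 * Real.sin θ,
      x.1 * Real.sin θ + x.2 * Real.cos θ)) volume volume := by
  have h1 := Complex.volume_preserving_equiv_real_prod
  have h2 := (rotation (Circle.exp θ)).measurePreserving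
  have h3 := h1.comp (h2.comp h1.symm)
  convert! h3 using 1
  funext x
  simp only [Function.comp_apply]
  ext
  · simp [Complex.measurableEquivRealProd, rotation_apply, Circle.coe_exp, Complex.exp_mul_I,
      Complex.add_re, Complex.mul_re, Complex.cos_ofReal_re, Complex.sin_ofReal_re]
    ring
  · simp [Complex.measurableEquivRealProd, rotation_apply, Circle.coe_exp, Complex.exp_mul_I,
      Complex.cos_ofReal_re, Complex.sin_ofReal_re]
    ring

theorem emb_eq {k : ℕ} (θ σ y : ℝ) (z : E k) :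
    emb θ σ (ins y z) = ins (y * Real.cos θ - σ * Real.sin θ)
      (ins (y * Real.sin θ + σ * Real.cos θ) z) := by
  rw [emb, ins_apply_zero, tl_ins]

theorem measurable_lintegral_ins2 {k : ℕ} {f : E (k + 2) → ℝ≥0∞} (hf : Measurable f) :
    Measurable (fun x : ℝ × ℝ => ∫⁻ z : E k, f (ins x.1 (ins x.2 z))) := by
  apply Measurable.lintegral_prod_right'
    (f := fun q : (ℝ × ℝ) × E k => f (ins q.1.1 (ins q.1.2 q.2)))
  exact hf.comp (measurable_ins.comp (measurable_fst.fst.prodMk
    (measurable_ins.comp (measurable_fst.snd.prodMk measurable_snd))))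

theorem lintegral_ins2 {k : ℕ} {f : E (k + 2) → ℝ≥0∞} (hf : Measurable f) :
    ∫⁻ p, f p = ∫⁻ x : ℝ × ℝ, ∫⁻ z : E k, f (ins x.1 (ins x.2 z)) := by
  rw [lintegral_ins hf, Measure.volume_eq_prod, lintegral_prod _ (measurable_lintegral_ins2 hf).aemeasurable]
  refine lintegral_congr fun y => ?_
  exact lintegral_ins (hf.comp (measurable_ins.comp (measurable_const.prodMk measurable_id)))

/-- Tonelli in the rotated coordinates. -/
theorem lintegral_emb {k : ℕ} (θ β : ℝ) {f : E (k + 2) → ℝ≥0∞} (hf : Measurable f) :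
    ∫⁻ p, f p = ∫⁻ σ : ℝ, ∫⁻ q : E (k + 1), f (emb θ (β + σ) q) := by
  rw [lintegral_ins2 hf]
  have hF := measurable_lintegral_ins2 hf
  set F : ℝ × ℝ → ℝ≥0∞ := fun x => ∫⁻ z : E k, f (ins x.1 (ins x.2 z)) with hFdef
  have h1 : ∀ σ : ℝ, ∫⁻ q : E (k + 1), f (emb θ σ q) =
      ∫⁻ y : ℝ, F (y * Real.cos θ - σ * Real.sin θ, y * Real.sin θ + σ * Real.cos θ) := by
    intro σ
    have hm : Measurable (fun q : E (k + 1) => f (emb θ σ q)) := hf.comp (measurable_emb.comp
      (measurable_const.prodMk (measurable_const.prodMk measurable_id)))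
    rw [lintegral_ins hm]
    simp only [emb_eq]
    rfl
  have h2 : ∫⁻ σ : ℝ, ∫⁻ q : E (k + 1), f (emb θ (β + σ) q) =
      ∫⁻ σ : ℝ, ∫⁻ q : E (k + 1), f (emb θ σ q) :=
    lintegral_add_left_eq_self (fun σ => ∫⁻ q : E (k + 1), f (emb θ σ q)) β
  rw [h2]
  simp only [h1]
  have hR := measurePreserving_rot θ
  rw [← hR.lintegral_comp hF, Measure.volume_eq_prod]
  exact lintegral_prod_symm _ (hF.comp hR.measurable).aemeasurable

end Pool.Agent.H742R2.Kk
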