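import Pool.Agent.H69.L8.H742R2.Kk.Defs

set_option autoImplicit false

open MeasureTheory Set Filter Topology ENNReal NNReal Metric

namespace Pool.Agent.H742R2.Kk

/-- Joint measurability of the pieces. -/
theorem measurable_wav {m : ℕ} {X : Type*} [MeasurableSpace X] {δ : ℝ}
    {a : E (m + 1) → E (m + 1)} (ha : Measurable a) (k : ℤ)
    {f : X → E (m + 1) → ℝ≥0∞} (hf : Measurable (Function.uncurry f)) :
    Measurable (fun x : X × E (m + 1) => wav δ a k (f x.1) x.2) := by
  have hmeas : MeasurableSet {q : (X × E (m + 1)) × E (m + 1) |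
      q.2 ∈ tub δ q.1.2 (a q.1.2) k} := by
    have h2 : Measurable (fun q : (X × E (m + 1)) × E (m + 1) => q.2) := measurable_snd
    have he : Measurable (fun q : (X × E (m + 1)) × E (m + 1) => q.1.2) :=
      measurable_snd.comp measurable_fst
    have hae : Measurable (fun q : (X × E (m + 1)) × E (m + 1) => a q.1.2) := ha.comp he
    have hin : Measurable (fun q : (X × E (m + 1)) × E (m + 1) => (inner ℝ q.2 q.1.2 : ℝ)) :=
      h2.inner he
    have hin2 : Measurable (fun q : (X × E (m + 1)) × E (m + 1) =>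
        (inner ℝ (q.2 - a q.1.2) q.1.2 : ℝ)) := (h2.sub hae).inner he
    have hn : Measurable (fun q : (X × E (m + 1)) × E (m + 1) =>
        ‖(q.2 - a q.1.2) - (inner ℝ (q.2 - a q.1.2) q.1.2 : ℝ) • q.1.2‖) :=
      ((h2.sub hae).sub (hin2.smul he)).norm
    have h1 : MeasurableSet {q : (X × E (m + 1)) × E (m + 1) |
        (k : ℝ) ≤ (inner ℝ q.2 q.1.2 : ℝ)} := measurableSet_le measurable_const hin
    have h3 : MeasurableSet {q : (X × E (m + 1)) × E (m + 1) |
        (inner ℝ q.2 q.1.2 : ℝ) ≤ (k : ℝ) + 1} := measurableSet_le hin measurable_const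
    have h4 : MeasurableSet {q : (X × E (m + 1)) × E (m + 1) |
        ‖(q.2 - a q.1.2) - (inner ℝ (q.2 - a q.1.2) q.1.2 : ℝ) • q.1.2‖ ≤ δ} :=
      measurableSet_le hn measurable_const
    exact h1.inter (h3.inter h4)
  have hkey : ∀ x : X × E (m + 1), wav δ a k (f x.1) x.2 =
      (ENNReal.ofReal δ ^ m)⁻¹ * ∫⁻ p, {q : (X × E (m + 1)) × E (m + 1) |
        q.2 ∈ tub δ q.1.2 (a q.1.2) k}.indicator (fun q => f q.1.1 q.2) (x, p) := by
    intro x
    have hs : MeasurableSet (tub δ x.2 (a x.2) k) :=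
      (measurable_prodMk_left (x := x) hmeas : _)
    unfold wav
    rw [← lintegral_indicator hs]
    rfl
  simp_rw [hkey]
  refine Measurable.const_mul ?_ _
  refine Measurable.lintegral_prod_right' (f := {q : (X × E (m + 1)) × E (m + 1) |
        q.2 ∈ tub δ q.1.2 (a q.1.2) k}.indicator (fun q => f q.1.1 q.2)) ?_
  refine Measurable.indicator ?_ hmeas
  exact hf.comp ((measurable_fst.comp measurable_fst).prodMk measurable_snd)

end Pool.Agent.H742R2.Kk
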