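import Pool.Agent.H69.L8.H742R2.Kk.TubProj
import Pool.Agent.H69.L8.H742R2.Kk.MeasWav

set_option autoImplicit false

open MeasureTheory Set Filter Topology ENNReal NNReal Metric

namespace Pool.Agent.H742R2.Kk.Fib

open Pool.Agent.H742R2.Kk

theorem holder_step {X : Type*} [MeasurableSpace X] (ν : Measure X) (m : ℕ)
    {u w φ : X → ℝ≥0∞} (hw : AEMeasurable w ν) (hφ : AEMeasurable φ ν)
    (h : ∀ᵐ x ∂ν, u x ≤ w x ^ (((m:ℝ)+1)/(m+2)) * φ x ^ ((1:ℝ)/(m+2))) :
    (∫⁻ x, u x ∂ν) ^ (m+2) ≤ (∫⁻ x, w x ∂ν)^(m+1) * ∫⁻ x, φ x ∂ν := by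
  have hm : (0:ℝ) < m + 2 := by positivity
  have h1 : ∫⁻ x, u x ∂ν ≤ (∫⁻ x, w x ∂ν) ^ (((m:ℝ)+1)/(m+2)) * (∫⁻ x, φ x ∂ν) ^ ((1:ℝ)/(m+2)) :=
    (lintegral_mono_ae h).trans (ENNReal.lintegral_mul_norm_pow_le hw hφ (by positivity)
      (by positivity) (by field_simp; ring))
  calc (∫⁻ x, u x ∂ν) ^ (m+2)
      ≤ ((∫⁻ x, w x ∂ν) ^ (((m:ℝ)+1)/(m+2)) * (∫⁻ x, φ x ∂ν) ^ ((1:ℝ)/(m+2))) ^ (m+2) := by
        gcongr
    _ = _ := by
        rw [mul_pow]
        congr 1
        · rw [← ENNReal.rpow_natCast, ← ENNReal.rpow_mul, ← ENNReal.rpow_natCast]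
          congr 1
          push_cast
          field_simp
        · rw [← ENNReal.rpow_natCast, ← ENNReal.rpow_mul]
          have : (1:ℝ) / (m + 2) * ((m + 2 : ℕ) : ℝ) = 1 := by
            push_cast
            field_simp
          rw [this, ENNReal.rpow_one]

/-- Jensen. -/
theorem pow_lintegral_le {X : Type*} [MeasurableSpace X] (ν : Measure X) [IsProbabilityMeasure ν]
    (m : ℕ) {g : X → ℝ≥0∞} (hg : AEMeasurable g ν) :
    (∫⁻ x, g x ∂ν) ^ (m+1) ≤ ∫⁻ x, g x ^ (m+1) ∂ν := by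
  have h1 := ENNReal.lintegral_mul_norm_pow_le (μ := ν) (f := fun x => g x ^ (m+1))
    (g := fun _ => 1) (hg.pow_const _) aemeasurable_const (p := 1/((m:ℝ)+1))
    (q := (m:ℝ)/(m+1)) (by positivity) (by positivity) (by field_simp; ring)
  have h2 : ∀ x, (g x ^ (m+1)) ^ (1/((m:ℝ)+1)) = g x := by
    intro x
    rw [← ENNReal.rpow_natCast, ← ENNReal.rpow_mul]
    have : ((m + 1 : ℕ) : ℝ) * (1 / ((m:ℝ) + 1)) = 1 := by
      push_cast
      field_simp
    rw [this, ENNReal.rpow_one]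
  simp only [ENNReal.one_rpow, mul_one, h2, lintegral_const, measure_univ] at h1
  calc (∫⁻ x, g x ∂ν) ^ (m+1) ≤ ((∫⁻ x, g x ^ (m+1) ∂ν) ^ (1/((m:ℝ)+1))) ^ (m+1) := by
        gcongr
    _ = _ := by
        rw [← ENNReal.rpow_natCast, ← ENNReal.rpow_mul]
        have : (1:ℝ) / (m + 1) * ((m + 1 : ℕ) : ℝ) = 1 := by
          push_cast
          field_simp
        rw [this, ENNReal.rpow_one]

/-- The uniform probability measure on `[-δ, δ]`. -/
noncomputable def unif (δ : ℝ) : Measure ℝ :=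
  (ENNReal.ofReal (2 * δ))⁻¹ • volume.restrict (Icc (-δ) δ)

theorem unif_prob {δ : ℝ} (hδ : 0 < δ) : IsProbabilityMeasure (unif δ) := by
  constructor
  unfold unif
  rw [Measure.smul_apply, Measure.restrict_apply_univ, Real.volume_Icc, smul_eq_mul]
  have : δ - -δ = 2 * δ := by ring
  rw [this]
  exact ENNReal.inv_mul_cancel (by simpa using hδ) ENNReal.ofReal_ne_top

theorem lintegral_unif {δ : ℝ} (g : ℝ → ℝ≥0∞) :
    ∫⁻ σ, g σ ∂(unif δ) = (ENNReal.ofReal (2 * δ))⁻¹ * ∫⁻ σ in Icc (-δ) δ, g σ := by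
  unfold unif
  rw [lintegral_smul_measure, smul_eq_mul]

/-- The pointwise identity behind the choice of `w`. -/
theorem pointwise (m : ℕ) (u φ : ℝ≥0∞) (h0 : φ ≠ 0) (ht : φ ≠ ∞) :
    u ≤ ((u ^ (m+2) * φ⁻¹) ^ ((1:ℝ)/(m+1))) ^ (((m:ℝ)+1)/(m+2)) * φ ^ ((1:ℝ)/(m+2)) := by
  rw [← ENNReal.rpow_mul]
  have h1 : (1:ℝ)/(m+1) * (((m:ℝ)+1)/(m+2)) = 1/(m+2) := by field_simp
  rw [h1, ← ENNReal.mul_rpow_of_nonneg _ _ (by positivity), mul_assoc,
    ENNReal.inv_mul_cancel h0 ht, mul_one, ← ENNReal.rpow_natCast, ← ENNReal.rpow_mul]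
  have : ((m + 2 : ℕ) : ℝ) * (1 / ((m:ℝ) + 2)) = 1 := by
    push_cast
    field_simp
  rw [this, ENNReal.rpow_one]

theorem window {m : ℕ} {δ : ℝ} (hδ1 : δ < 1) {e a : E (m+1)} (he : ‖e‖ = 1) (he0 : 0 < e 0)
    (k : ℤ) : ∃ j : ℤ, ∀ p ∈ tub δ e a k, p 0 ∈ Icc ((j:ℝ) - 1) (j + 3) := by
  set y0 : ℝ := a 0 + (k - inner ℝ a e) * e 0 with hy0
  refine ⟨⌊y0⌋, ?_⟩
  rintro p ⟨h1, h2, h3⟩
  have he1 : e 0 ≤ 1 := by
    have := PiLp.norm_apply_le (p := 2) e 0
    rw [he, Real.norm_eq_abs] at this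
    exact (le_abs_self _).trans this
  have hq : |p 0 - a 0 - inner ℝ (p - a) e * e 0| ≤ δ := by
    have := PiLp.norm_apply_le (p := 2) ((p - a) - (inner ℝ (p - a) e : ℝ) • e) 0
    rw [Real.norm_eq_abs] at this
    simpa using this.trans h3
  rw [inner_sub_left] at hq
  have hf1 := Int.floor_le y0
  have hf2 := Int.lt_floor_add_one y0
  rw [abs_le] at hq
  have h4 : 0 ≤ (inner ℝ p e - k) * e 0 := mul_nonneg (by linarith) he0.le
  have h5 : (inner ℝ p e - k) * e 0 ≤ 1 := by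
    nlinarith
  have h6 : (inner ℝ p e - inner ℝ a e) * e 0 = (inner ℝ p e - k) * e 0 + (y0 - a 0) := by
    rw [hy0]; ring
  constructor <;> nlinarith


/-- `wav` as an integral with respect to a measure. -/
theorem wav_eq {m : ℕ} (δ : ℝ) (a : E (m + 1) → E (m + 1)) (k : ℤ) (f : E (m + 1) → ℝ≥0∞)
    (e : E (m + 1)) : wav δ a k f e
      = ∫⁻ p, f p ∂((ENNReal.ofReal δ ^ m)⁻¹ • volume.restrict (tub δ e (a e) k)) := by
  rw [lintegral_smul_measure, smul_eq_mul]
  rfl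

section core

variable {m : ℕ} {δ : ℝ} {G : ℝ → E (m + 1) → ℝ≥0∞}

/-- `(∫ G(σ, y, z)^(m+2) dz)^(1/2)`. -/
noncomputable def psi (G : ℝ → E (m + 1) → ℝ≥0∞) (σ y : ℝ) : ℝ≥0∞ :=
  (∫⁻ z : E m, G σ (ins y z) ^ (m + 2)) ^ ((1:ℝ) / 2)

/-- Window number `j`. -/
def J (j : ℤ) : Set ℝ := Icc ((j:ℝ) - 1) (j + 3)

/-- The function `psi` cut off to a window. -/
noncomputable def phi (G : ℝ → E (m + 1) → ℝ≥0∞) (j : ℤ) (σ y : ℝ) : ℝ≥0∞ :=
  (J j).indicator (psi G σ) y

/-- The function `G` cut off to a window. -/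
noncomputable def uu (G : ℝ → E (m + 1) → ℝ≥0∞) (j : ℤ) (σ : ℝ) (p : E (m + 1)) : ℝ≥0∞ :=
  (J j).indicator (fun _ => G σ p) (p 0)

/-- The auxiliary function. -/
noncomputable def ww (G : ℝ → E (m + 1) → ℝ≥0∞) (j : ℤ) (σ : ℝ) (p : E (m + 1)) : ℝ≥0∞ :=
  (uu G j σ p ^ (m + 2) * (phi G j σ (p 0))⁻¹) ^ ((1:ℝ) / (m + 1))

theorem measJ (j : ℤ) : MeasurableSet (J j) := measurableSet_Icc

theorem meas_zero {k : ℕ} : Measurable (fun p : E (k + 1) => p 0) :=
  (EuclideanSpace.proj (𝕜 := ℝ) (0 : Fin (k+1))).continuous.measurable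

theorem meas_psi (hG : Measurable (Function.uncurry G)) :
    Measurable (Function.uncurry (psi G)) := by
  unfold psi
  have h1 : Measurable (fun x : (ℝ × ℝ) × E m => G x.1.1 (ins x.1.2 x.2) ^ (m+2)) := by
    apply Measurable.pow_const
    exact hG.comp ((measurable_fst.comp measurable_fst).prodMk (measurable_ins.comp
      ((measurable_snd.comp measurable_fst).prodMk measurable_snd)))
  exact (h1.lintegral_prod_right').pow_const _

theorem meas_phi (hG : Measurable (Function.uncurry G)) (j : ℤ) :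
    Measurable (Function.uncurry (phi G j)) := by
  have h1 := (meas_psi hG).indicator (s := {x : ℝ × ℝ | x.2 ∈ J j})
    (measurable_snd measurableSet_Icc)
  exact h1

theorem meas_uu (hG : Measurable (Function.uncurry G)) (j : ℤ) :
    Measurable (Function.uncurry (uu G j)) := by
  have h1 := hG.indicator (s := {x : ℝ × E (m+1) | x.2 0 ∈ J j})
    ((meas_zero.comp measurable_snd) measurableSet_Icc)
  exact h1

theorem meas_ww (hG : Measurable (Function.uncurry G)) (j : ℤ) :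
    Measurable (Function.uncurry (ww G j)) := by
  have h1 : Measurable (fun x : ℝ × E (m+1) => phi G j x.1 (x.2 0)) :=
    (meas_phi hG j).comp (measurable_fst.prodMk (meas_zero.comp measurable_snd))
  exact (((meas_uu hG j).pow_const _).mul h1.inv).pow_const _

theorem lintegral_ww_le (hG : Measurable (Function.uncurry G)) (j : ℤ) (σ : ℝ) :
    ∫⁻ p, ww G j σ p ^ (m + 1) ≤ ∫⁻ y in J j, psi G σ y := by
  have h0 : ∀ p, ww G j σ p ^ (m + 1) = uu G j σ p ^ (m + 2) * (phi G j σ (p 0))⁻¹ := by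
    intro p
    unfold ww
    rw [← ENNReal.rpow_natCast, ← ENNReal.rpow_mul]
    have : (1:ℝ) / (m + 1) * ((m + 1 : ℕ) : ℝ) = 1 := by
      push_cast
      field_simp
    rw [this, ENNReal.rpow_one]
  have hm : Measurable (fun p => uu G j σ p ^ (m + 2) * (phi G j σ (p 0))⁻¹) := by
    have h1 := (meas_ww hG j).comp (measurable_const (a := σ) |>.prodMk measurable_id)
    have h2 := h1.pow_const (m+1)
    simpa [Function.comp_def, h0] using h2
  simp only [h0]
  rw [lintegral_ins hm, ← lintegral_indicator (measJ j)]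
  apply lintegral_mono
  intro y
  simp only [ins_zero]
  have hmz : Measurable (fun z : E m => uu G j σ (ins y z) ^ (m+2)) := by
    apply Measurable.pow_const
    exact (meas_uu hG j).comp (measurable_const.prodMk (measurable_ins.comp
      (measurable_const.prodMk measurable_id)))
  rw [lintegral_mul_const _ hmz]
  by_cases hy : y ∈ J j
  · have h1 : ∀ z : E m, uu G j σ (ins y z) = G σ (ins y z) := by
      intro z
      unfold uu
      rw [ins_zero, indicator_of_mem hy]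
    have h2 : phi G j σ y = psi G σ y := by
      unfold phi
      rw [indicator_of_mem hy]
    simp only [h1, h2]
    show _ ≤ (J j).indicator (fun y => psi G σ y) y
    rw [indicator_of_mem hy]
    have h3 : ∫⁻ z : E m, G σ (ins y z) ^ (m + 2) = psi G σ y * psi G σ y := by
      unfold psi
      rw [← ENNReal.rpow_add_of_nonneg _ _ (by norm_num) (by norm_num)]
      norm_num
    rw [h3]
    rcases eq_or_ne (psi G σ y) 0 with h | h
    · simp [h]
    rcases eq_or_ne (psi G σ y) ∞ with h' | h'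
    · simp [h']
    rw [mul_assoc, ENNReal.mul_inv_cancel h h', mul_one]
  · have h1 : ∀ z : E m, uu G j σ (ins y z) = 0 := by
      intro z
      unfold uu
      rw [ins_zero, indicator_of_notMem hy]
    simp [h1]

/-- The exceptional set is null. -/
theorem ae_le (hG : Measurable (Function.uncurry G)) (j : ℤ) (hδ : 0 < δ)
    (hfin : ∫⁻ σ, (∫⁻ y in J j, psi G σ y) ∂(unif δ) ≠ ∞) :
    ∀ᵐ x ∂((unif δ).prod (volume : Measure (E (m+1)))), uu G j x.1 x.2 ≤
      ww G j x.1 x.2 ^ (((m:ℝ)+1)/(m+2)) * phi G j x.1 (x.2 0) ^ ((1:ℝ)/(m+2)) := by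
  set S : Set (ℝ × E (m+1)) := {x | ¬ (uu G j x.1 x.2 ≤
      ww G j x.1 x.2 ^ (((m:ℝ)+1)/(m+2)) * phi G j x.1 (x.2 0) ^ ((1:ℝ)/(m+2)))} with hS
  have hphi : Measurable (fun x : ℝ × E (m+1) => phi G j x.1 (x.2 0)) :=
    (meas_phi hG j).comp (measurable_fst.prodMk (meas_zero.comp measurable_snd))
  have hSm : MeasurableSet S := by
    apply MeasurableSet.compl
    exact measurableSet_le (meas_uu hG j) (((meas_ww hG j).pow_const _).mul (hphi.pow_const _))
  have hprob := unif_prob hδ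
  show ((unif δ).prod (volume : Measure (E (m+1)))) S = 0
  rw [Measure.prod_apply hSm]
  have hmeasI : Measurable (fun σ => ∫⁻ y in J j, psi G σ y) := by
    exact ((meas_psi hG).lintegral_prod_right' (ν := volume.restrict (J j)))
  have hfin2 := ae_lt_top hmeasI hfin
  rw [lintegral_eq_zero_iff (measurable_measure_prodMk_left hSm)]
  filter_upwards [hfin2] with σ hσ
  show volume (Prod.mk σ ⁻¹' S) = 0
  have hSσ : MeasurableSet (Prod.mk σ ⁻¹' S) := measurable_prodMk_left hSm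
  rw [← lintegral_indicator_one hSσ, lintegral_ins (measurable_one.indicator hSσ)]
  have hψσ : Measurable (psi G σ) := (meas_psi hG).comp measurable_prodMk_left
  have hae := ae_lt_top hψσ hσ.ne
  rw [ae_restrict_iff' (measJ j)] at hae
  rw [lintegral_eq_zero_iff]
  swap
  · exact ((measurable_one.indicator hSσ).comp measurable_ins).lintegral_prod_right'
  filter_upwards [hae] with y hy
  show ∫⁻ z : E m, (Prod.mk σ ⁻¹' S).indicator 1 (ins y z) = 0
  by_cases hyJ : y ∈ J j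
  · have hyt := (hy hyJ).ne
    rcases eq_or_ne (psi G σ y) 0 with h0 | h0
    · -- `G` vanishes for almost all `z`
      have h1 : ∫⁻ z : E m, G σ (ins y z) ^ (m + 2) = 0 := by
        unfold psi at h0
        rwa [ENNReal.rpow_eq_zero_iff_of_pos (by norm_num)] at h0
      have hmz : Measurable (fun z : E m => G σ (ins y z) ^ (m+2)) := by
        apply Measurable.pow_const
        exact hG.comp (measurable_const.prodMk (measurable_ins.comp
          (measurable_const.prodMk measurable_id)))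
      rw [lintegral_eq_zero_iff hmz] at h1
      rw [lintegral_eq_zero_iff]
      swap
      · exact (measurable_one.indicator hSσ).comp (measurable_ins.comp
          (measurable_const.prodMk measurable_id))
      filter_upwards [h1] with z hz
      have hz0 : G σ (ins y z) = 0 := by
        simpa using hz
      have : ins y z ∉ Prod.mk σ ⁻¹' S := by
        intro hmem
        apply hmem
        show uu G j σ (ins y z) ≤ _
        unfold uu
        rw [ins_zero, indicator_of_mem hyJ, hz0]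
        exact zero_le
      exact indicator_of_notMem this _
    · have : ∀ z : E m, (Prod.mk σ ⁻¹' S).indicator (1 : E (m+1) → ℝ≥0∞) (ins y z) = 0 := by
        intro z
        apply indicator_of_notMem
        intro hmem
        apply hmem
        show uu G j σ (ins y z) ≤ ww G j σ (ins y z) ^ (((m:ℝ)+1)/(m+2)) *
          phi G j σ ((ins y z) 0) ^ ((1:ℝ)/(m+2))
        have h2 : phi G j σ ((ins y z) 0) = psi G σ y := by
          unfold phi
          rw [ins_zero, indicator_of_mem hyJ]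
        have h3 := pointwise m (uu G j σ (ins y z)) (phi G j σ ((ins y z) 0))
          (by rw [h2]; exact h0) (by rw [h2]; exact hyt)
        exact h3
      simp [this]
  · have : ∀ z : E m, (Prod.mk σ ⁻¹' S).indicator (1 : E (m+1) → ℝ≥0∞) (ins y z) = 0 := by
      intro z
      apply indicator_of_notMem
      intro hmem
      apply hmem
      show uu G j σ (ins y z) ≤ _
      unfold uu
      rw [ins_zero, indicator_of_notMem hyJ]
      exact zero_le
    simp [this]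

/-- Hölder for the averages over a tube. -/
theorem avg_holder (hG : Measurable (Function.uncurry G)) (j : ℤ) (hδ : 0 < δ)
    (hfin : ∫⁻ σ, (∫⁻ y in J j, psi G σ y) ∂(unif δ) ≠ ∞) (a : E (m+1) → E (m+1)) (k : ℤ)
    (e : E (m+1)) :
    (∫⁻ σ, wav δ a k (uu G j σ) e ∂(unif δ)) ^ (m+2)
      ≤ (∫⁻ σ, wav δ a k (ww G j σ) e ∂(unif δ)) ^ (m+1)
        * ∫⁻ σ, wav δ a k (fun p => phi G j σ (p 0)) e ∂(unif δ) := by
  have hprob := unif_prob hδ
  set ν : Measure (E (m+1)) := (ENNReal.ofReal δ ^ m)⁻¹ • volume.restrict (tub δ e (a e) k) with hν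
  have hac : (unif δ).prod ν ≪ (unif δ).prod (volume : Measure (E (m+1))) := by
    apply Measure.AbsolutelyContinuous.rfl.prod
    rw [hν]
    exact (Measure.absolutelyContinuous_of_le Measure.restrict_le_self).smul_left _
  have hν' : SFinite ν := by rw [hν]; infer_instance
  have h := holder_step ((unif δ).prod ν) m (u := fun x => uu G j x.1 x.2)
    (w := fun x => ww G j x.1 x.2) (φ := fun x => phi G j x.1 (x.2 0))
    (meas_ww hG j).aemeasurable
    ((meas_phi hG j).comp (measurable_fst.prodMk (meas_zero.comp measurable_snd))).aemeasurable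
    (hac.ae_le (ae_le hG j hδ hfin))
  have e1 := lintegral_prod (μ := unif δ) (ν := ν) (fun x : ℝ × E (m+1) => uu G j x.1 x.2)
    (meas_uu hG j).aemeasurable
  have e2 := lintegral_prod (μ := unif δ) (ν := ν) (fun x : ℝ × E (m+1) => ww G j x.1 x.2)
    (meas_ww hG j).aemeasurable
  have e3 := lintegral_prod (μ := unif δ) (ν := ν) (fun x : ℝ × E (m+1) => phi G j x.1 (x.2 0))
    ((meas_phi hG j).comp (measurable_fst.prodMk (meas_zero.comp measurable_snd))).aemeasurable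
  rw [e1, e2, e3] at h
  simp only [wav_eq]
  exact h

/-- The average over `σ`. -/
noncomputable def PHI (δ : ℝ) (G : ℝ → E (m + 1) → ℝ≥0∞) (j : ℤ) : ℝ≥0∞ :=
  ∫⁻ σ, (∫⁻ y in J j, psi G σ y) ∂(unif δ)

theorem wav_congr_on {a : E (m+1) → E (m+1)} {k : ℤ} {f g : E (m+1) → ℝ≥0∞} {e : E (m+1)}
    (h : ∀ p ∈ tub δ e (a e) k, f p = g p) : wav δ a k f e = wav δ a k g e := by
  have hms : MeasurableSet (tub δ e (a e) k) := by
    have h1 : IsClosed {p : E (m+1) | (k:ℝ) ≤ inner ℝ p e} :=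
      isClosed_le continuous_const (by fun_prop)
    have h2 : IsClosed {p : E (m+1) | inner ℝ p e ≤ (k:ℝ) + 1} :=
      isClosed_le (by fun_prop) continuous_const
    have h3 : IsClosed {p : E (m+1) | ‖(p - a e) - (inner ℝ (p - a e) e : ℝ) • e‖ ≤ δ} :=
      isClosed_le (by fun_prop) continuous_const
    exact (h1.inter (h2.inter h3)).measurableSet
  unfold wav
  rw [setLIntegral_congr_fun hms h]

/-- Pointwise estimate. -/
theorem point_est (hG : Measurable (Function.uncurry G)) {c : ℝ}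
    (hproj : ∀ (δ : ℝ) (e a : E (m + 1)) (k : ℤ) (φ : ℝ → ℝ≥0∞),
      0 < δ → δ < 1 → ‖e‖ = 1 → 0 < e 0 → Measurable φ →
      (ENNReal.ofReal δ ^ m)⁻¹ * ∫⁻ p in tub δ e a k, φ (p 0)
      ≤ ENNReal.ofReal (c / e 0) * ∫⁻ y, φ y)
    (hδ : 0 < δ) (hδ1 : δ < 1) {a : E (m+1) → E (m+1)} (ha : Measurable a)
    (hfin : ∀ j, PHI δ G j ≠ ∞) {e : E (m+1)} (he : ‖e‖ = 1) (he0 : 0 < e 0) :
    (⨆ k : ℤ, ∫⁻ σ, wav δ a k (G σ) e ∂(unif δ)) ^ (m + 2)
      ≤ ENNReal.ofReal (c / e 0) * ∑' j : ℤ, PHI δ G j *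
        ∫⁻ σ, (⨆ k : ℤ, wav δ a k (ww G j σ) e) ^ (m+1) ∂(unif δ) := by
  have hprob := unif_prob hδ
  rw [ENNReal.iSup_pow]
  apply iSup_le
  intro k
  obtain ⟨j, hj⟩ := window hδ1 (a := a e) he he0 k
  have h1 : ∀ σ, wav δ a k (G σ) e = wav δ a k (uu G j σ) e := by
    intro σ
    apply wav_congr_on
    intro p hp
    have hpj : p 0 ∈ J j := hj p hp
    unfold uu
    rw [indicator_of_mem hpj]
  simp only [h1]
  refine (avg_holder hG j hδ (hfin j) a k e).trans ?_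
  have h2 : ∫⁻ σ, wav δ a k (fun p => phi G j σ (p 0)) e ∂(unif δ)
      ≤ ENNReal.ofReal (c / e 0) * PHI δ G j := by
    have h3 : ∀ σ, wav δ a k (fun p => phi G j σ (p 0)) e
        ≤ ENNReal.ofReal (c / e 0) * ∫⁻ y in J j, psi G σ y := by
      intro σ
      have := hproj δ e (a e) k (phi G j σ) hδ hδ1 he he0
        ((meas_phi hG j).comp measurable_prodMk_left)
      refine this.trans (le_of_eq ?_)
      congr 1
      unfold phi
      rw [lintegral_indicator (measJ j)]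
    refine (lintegral_mono h3).trans (le_of_eq ?_)
    unfold PHI
    rw [lintegral_const_mul']
    exact ENNReal.ofReal_ne_top
  have h4 : (∫⁻ σ, wav δ a k (ww G j σ) e ∂(unif δ)) ^ (m+1)
      ≤ ∫⁻ σ, (⨆ k : ℤ, wav δ a k (ww G j σ) e) ^ (m+1) ∂(unif δ) := by
    have hm1 : Measurable (fun σ => wav δ a k (ww G j σ) e) := by
      have h5 : Measurable (fun x : ℝ × E (m+1) => wav δ a k (ww G j x.1) x.2) :=
        measurable_wav (δ := δ) ha k (meas_ww hG j)
      have h6 : Measurable (fun σ : ℝ => (σ, e)) := measurable_prodMk_right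
      exact h5.comp h6
    refine (pow_lintegral_le (unif δ) m hm1.aemeasurable).trans ?_
    apply lintegral_mono
    intro σ
    exact pow_le_pow_left' (le_iSup (fun k : ℤ => wav δ a k (ww G j σ) e) k) _
  calc (∫⁻ σ, wav δ a k (ww G j σ) e ∂(unif δ)) ^ (m+1)
        * ∫⁻ σ, wav δ a k (fun p => phi G j σ (p 0)) e ∂(unif δ)
      ≤ (∫⁻ σ, (⨆ k : ℤ, wav δ a k (ww G j σ) e) ^ (m+1) ∂(unif δ))
        * (ENNReal.ofReal (c / e 0) * PHI δ G j) := by gcongr
    _ = ENNReal.ofReal (c / e 0) * (PHI δ G j *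
        ∫⁻ σ, (⨆ k : ℤ, wav δ a k (ww G j σ) e) ^ (m+1) ∂(unif δ)) := by ring
    _ ≤ _ := by
        gcongr
        exact ENNReal.le_tsum (f := fun j => PHI δ G j *
          ∫⁻ σ, (⨆ k : ℤ, wav δ a k (ww G j σ) e) ^ (m+1) ∂(unif δ)) j

theorem meas_norm : Measurable (fun x : ℝ × E (m+1) => (x.1, ‖x.2‖⁻¹ • x.2)) := by
  apply Measurable.prodMk measurable_fst
  apply Measurable.smul (f := fun x : ℝ × E (m+1) => ‖x.2‖⁻¹)
  · exact measurable_snd.norm.inv
  · exact measurable_snd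

theorem meas_Y0 (hG : Measurable (Function.uncurry G)) {a : E (m+1) → E (m+1)}
    (ha : Measurable a) (j k : ℤ) :
    Measurable (fun x : ℝ × E (m+1) => wav δ a k (ww G j x.1) (‖x.2‖⁻¹ • x.2)) := by
  have h1 : Measurable (fun x : ℝ × E (m+1) => wav δ a k (ww G j x.1) x.2) :=
    measurable_wav (δ := δ) ha k (meas_ww hG j)
  have h3 := Measurable.comp h1 (meas_norm (m := m))
  exact h3

theorem meas_Y (hG : Measurable (Function.uncurry G)) {a : E (m+1) → E (m+1)}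
    (ha : Measurable a) (j : ℤ) :
    Measurable (Function.uncurry (fun (σ : ℝ) (p : E (m+1)) =>
      (⨆ k : ℤ, wav δ a k (ww G j σ) (‖p‖⁻¹ • p)) ^ (m+1))) := by
  show Measurable (fun x : ℝ × E (m+1) => (⨆ k : ℤ, wav δ a k (ww G j x.1) (‖x.2‖⁻¹ • x.2)) ^ (m+1))
  exact (Measurable.iSup (fun k => meas_Y0 hG ha j k)).pow_const _

theorem fibre_fin (hG : Measurable (Function.uncurry G)) {c : ℝ} (hc : 0 < c)
    (hproj : ∀ (δ : ℝ) (e a : E (m + 1)) (k : ℤ) (φ : ℝ → ℝ≥0∞),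
      0 < δ → δ < 1 → ‖e‖ = 1 → 0 < e 0 → Measurable φ →
      (ENNReal.ofReal δ ^ m)⁻¹ * ∫⁻ p in tub δ e a k, φ (p 0)
      ≤ ENNReal.ofReal (c / e 0) * ∫⁻ y, φ y)
    (hδ : 0 < δ) (hδ1 : δ < 1) {a : E (m+1) → E (m+1)} (ha : Measurable a)
    (hfin : ∀ j, PHI δ G j ≠ ∞) {A : ℝ≥0∞} (hKB : KB m δ a A) :
    ∫⁻ p in {p : E (m + 1) | 0 < p 0} ∩ closedBall 0 1, ENNReal.ofReal (p 0) *
      (⨆ k : ℤ, ∫⁻ σ, wav δ a k (G σ) (‖p‖⁻¹ • p) ∂(unif δ)) ^ (m + 2)
    ≤ ENNReal.ofReal c * A * ∑' j : ℤ, PHI δ G j ^ 2 := by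
  have hprob := unif_prob hδ
  set D : Set (E (m+1)) := {p : E (m + 1) | 0 < p 0} ∩ closedBall 0 1 with hD
  have hDm : MeasurableSet D := (measurableSet_lt measurable_const meas_zero).inter
    measurableSet_closedBall
  set Y : ℤ → ℝ → E (m+1) → ℝ≥0∞ :=
    fun j σ p => (⨆ k : ℤ, wav δ a k (ww G j σ) (‖p‖⁻¹ • p)) ^ (m+1) with hY
  have hYm : ∀ j, Measurable (Function.uncurry (Y j)) := fun j => meas_Y hG ha j
  have hpt : ∀ p ∈ D, ENNReal.ofReal (p 0) *
      (⨆ k : ℤ, ∫⁻ σ, wav δ a k (G σ) (‖p‖⁻¹ • p) ∂(unif δ)) ^ (m + 2)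
      ≤ ENNReal.ofReal c * ∑' j : ℤ, PHI δ G j * ∫⁻ σ, Y j σ p ∂(unif δ) := by
    rintro p ⟨hp0, hp1⟩
    have hp0' : 0 < p 0 := hp0
    have hpn : p ≠ 0 := by
      rintro rfl
      simp at hp0'
    have hn : 0 < ‖p‖ := norm_pos_iff.mpr hpn
    have hn1 : ‖p‖ ≤ 1 := by simpa using hp1
    have he : ‖(‖p‖⁻¹ • p)‖ = 1 := by
      rw [norm_smul, norm_inv, norm_norm, inv_mul_cancel₀ hn.ne']
    have he0 : (‖p‖⁻¹ • p) 0 = ‖p‖⁻¹ * p 0 := rfl
    have he0' : 0 < (‖p‖⁻¹ • p) 0 := by rw [he0]; positivity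
    have h1 := point_est hG hproj hδ hδ1 ha hfin he he0'
    calc ENNReal.ofReal (p 0) *
          (⨆ k : ℤ, ∫⁻ σ, wav δ a k (G σ) (‖p‖⁻¹ • p) ∂(unif δ)) ^ (m + 2)
        ≤ ENNReal.ofReal (p 0) * (ENNReal.ofReal (c / (‖p‖⁻¹ • p) 0) *
          ∑' j : ℤ, PHI δ G j * ∫⁻ σ, Y j σ p ∂(unif δ)) := by gcongr
      _ = ENNReal.ofReal (p 0 * (c / (‖p‖⁻¹ • p) 0)) *
          ∑' j : ℤ, PHI δ G j * ∫⁻ σ, Y j σ p ∂(unif δ) := by
          rw [← mul_assoc, ← ENNReal.ofReal_mul hp0'.le]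
      _ ≤ _ := by
          gcongr
          rw [he0]
          have : p 0 * (c / (‖p‖⁻¹ * p 0)) = c * ‖p‖ := by
            field_simp
          rw [this]
          nlinarith
  calc ∫⁻ p in D, ENNReal.ofReal (p 0) *
      (⨆ k : ℤ, ∫⁻ σ, wav δ a k (G σ) (‖p‖⁻¹ • p) ∂(unif δ)) ^ (m + 2)
      ≤ ∫⁻ p in D, ENNReal.ofReal c * ∑' j : ℤ, PHI δ G j * ∫⁻ σ, Y j σ p ∂(unif δ) :=
        setLIntegral_mono' hDm hpt
    _ ≤ ∫⁻ p in closedBall 0 1, ENNReal.ofReal c *
          ∑' j : ℤ, PHI δ G j * ∫⁻ σ, Y j σ p ∂(unif δ) :=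
        lintegral_mono_set inter_subset_right
    _ = ENNReal.ofReal c * ∑' j : ℤ, PHI δ G j *
          ∫⁻ p in closedBall 0 1, (∫⁻ σ, Y j σ p ∂(unif δ)) := by
        rw [lintegral_const_mul' _ _ ENNReal.ofReal_ne_top, lintegral_tsum]
        · congr 1
          apply tsum_congr
          intro j
          rw [lintegral_const_mul' _ _ (hfin j)]
        · intro j
          apply Measurable.aemeasurable
          apply Measurable.const_mul
          exact (hYm j).lintegral_prod_left'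
    _ = ENNReal.ofReal c * ∑' j : ℤ, PHI δ G j *
          ∫⁻ σ, (∫⁻ p in closedBall 0 1, Y j σ p) ∂(unif δ) := by
        congr 1
        apply tsum_congr
        intro j
        rw [lintegral_lintegral_swap]
        exact ((hYm j).comp measurable_swap).aemeasurable
    _ ≤ ENNReal.ofReal c * ∑' j : ℤ, PHI δ G j * (A * PHI δ G j) := by
        gcongr with j
        unfold PHI
        have hmeasI : Measurable (fun σ => ∫⁻ y in J j, psi G σ y) :=
          (meas_psi hG).lintegral_prod_right' (ν := volume.restrict (J j))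
        rw [← lintegral_const_mul A hmeasI]
        apply lintegral_mono
        intro σ
        refine (hKB (ww G j σ) ((meas_ww hG j).comp measurable_prodMk_left)).trans ?_
        exact mul_le_mul' le_rfl (lintegral_ww_le hG j σ)
    _ = _ := by
        rw [mul_assoc]
        congr 1
        rw [← ENNReal.tsum_mul_left]
        apply tsum_congr
        intro j
        ring

end core

end Pool.Agent.H742R2.Kk.Fib

namespace Pool.Agent.H742R2.Kk

open Pool.Agent.H742R2.Kk.Fib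

theorem fibre (m : ℕ) : ∃ c : ℝ, 0 < c ∧ ∀ (δ : ℝ) (a' : E (m + 1) → E (m + 1)) (A : ℝ≥0∞)
    (G : ℝ → E (m + 1) → ℝ≥0∞), 0 < δ → δ < 1 → Measurable a' → A ≠ 0 → KB m δ a' A →
    Measurable (Function.uncurry G) →
    ∫⁻ p in {p : E (m + 1) | 0 < p 0} ∩ closedBall 0 1, ENNReal.ofReal (p 0) *
      (⨆ k : ℤ, (ENNReal.ofReal (2 * δ))⁻¹ *
        ∫⁻ σ in Icc (-δ) δ, wav δ a' k (G σ) (‖p‖⁻¹ • p)) ^ (m + 2)
    ≤ ENNReal.ofReal c * A * ∑' j : ℤ, ((ENNReal.ofReal (2 * δ))⁻¹ *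
        ∫⁻ σ in Icc (-δ) δ, ∫⁻ y in Icc ((j : ℝ) - 1) (j + 3),
          (∫⁻ z : E m, G σ (ins y z) ^ (m + 2)) ^ ((1:ℝ) / 2)) ^ 2 := by
  obtain ⟨c, hc, hproj⟩ := tub_proj m
  refine ⟨c, hc, ?_⟩
  intro δ a' A G hδ hδ1 ha hA hKB hG
  have hcA : ENNReal.ofReal c * A ≠ 0 := mul_ne_zero (by simpa using hc) hA
  have hP : ∀ j : ℤ, (ENNReal.ofReal (2 * δ))⁻¹ *
        ∫⁻ σ in Icc (-δ) δ, ∫⁻ y in Icc ((j : ℝ) - 1) (j + 3),
          (∫⁻ z : E m, G σ (ins y z) ^ (m + 2)) ^ ((1:ℝ) / 2) = PHI δ G j := by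
    intro j
    unfold PHI
    rw [lintegral_unif]
    rfl
  simp only [hP]
  by_cases hfin : ∀ j, PHI δ G j ≠ ∞
  · have h := fibre_fin hG hc hproj hδ hδ1 ha hfin hKB
    simp only [lintegral_unif] at h
    exact h
  · push Not at hfin
    obtain ⟨j, hj⟩ := hfin
    have h1 : ∑' j : ℤ, PHI δ G j ^ 2 = ∞ := by
      apply top_le_iff.mp
      calc ∞ = PHI δ G j ^ 2 := by rw [hj]; simp
        _ ≤ _ := ENNReal.le_tsum (f := fun j => PHI δ G j ^ 2) j
    rw [h1, ENNReal.mul_top hcA]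
    exact le_top

end Pool.Agent.H742R2.Kk
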