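import Pool.Agent.H69.L8.H742R2.Kk.Coord

set_option autoImplicit false

open MeasureTheory Set Filter Topology ENNReal NNReal Metric

namespace Pool.Agent.H742R2.Kk

/-- Polar coordinates in the first two variables. -/
theorem lintegral_polar {k : ℕ} {F : E (k + 2) → ℝ≥0∞} (hF : Measurable F) :
    ∫⁻ x, F x = ∫⁻ θ in Ioo (-Real.pi) Real.pi, ∫⁻ p in {p : E (k + 1) | 0 < p 0},
      ENNReal.ofReal (p 0) * F (emb θ 0 p) := by
  rw [lintegral_ins2 hF, ← lintegral_comp_polarCoord_symm]
  set H : ℝ × ℝ → ℝ≥0∞ := fun x => ∫⁻ z : E k, F (ins x.1 (ins x.2 z)) with hH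
  have hHm : Measurable H := measurable_lintegral_ins2 hF
  have hms : Measurable (fun x : ℝ × ℝ => ENNReal.ofReal x.1 • H (polarCoord.symm x)) := by
    simp only [smul_eq_mul]
    apply (ENNReal.measurable_ofReal.comp measurable_fst).mul
    apply hHm.comp
    exact (measurable_fst.mul measurable_snd.cos).prodMk (measurable_fst.mul measurable_snd.sin)
  rw [polarCoord_target, Measure.volume_eq_prod, ← Measure.prod_restrict,
    lintegral_prod_symm _ hms.aemeasurable]
  refine lintegral_congr fun θ => ?_
  have hset : MeasurableSet {p : E (k + 1) | 0 < p 0} := measurableSet_lt measurable_const (measurable_apply 0)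
  have hfm : Measurable (fun p : E (k + 1) => ENNReal.ofReal (p 0) * F (emb θ 0 p)) :=
    (ENNReal.measurable_ofReal.comp (measurable_apply 0)).mul (hF.comp (measurable_emb.comp
      (measurable_const.prodMk (measurable_const.prodMk measurable_id))))
  rw [← lintegral_indicator hset, lintegral_ins (hfm.indicator hset), ← lintegral_indicator measurableSet_Ioi]
  refine lintegral_congr fun r => ?_
  by_cases hr : 0 < r
  · rw [Set.indicator_of_mem (by exact hr)]
    have : ∀ z : E k, Set.indicator {p : E (k + 1) | 0 < p 0}
        (fun p => ENNReal.ofReal (p 0) * F (emb θ 0 p)) (ins r z) =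
        ENNReal.ofReal r * F (ins (r * Real.cos θ) (ins (r * Real.sin θ) z)) := by
      intro z
      rw [Set.indicator_of_mem (by simpa [ins_apply_zero] using hr), ins_apply_zero, emb_eq]
      simp
    simp only [this, polarCoord_symm_apply, smul_eq_mul, hH]
    rw [lintegral_const_mul']
    exact ENNReal.ofReal_ne_top
  · rw [Set.indicator_of_notMem (by exact hr)]
    have : ∀ z : E k, Set.indicator {p : E (k + 1) | 0 < p 0}
        (fun p => ENNReal.ofReal (p 0) * F (emb θ 0 p)) (ins r z) = 0 := by
      intro z
      rw [Set.indicator_of_notMem (by simpa [ins_apply_zero] using hr)]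
    simp only [this, lintegral_zero]

end Pool.Agent.H742R2.Kk
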