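import Pool.Agent.H69.L8.H742R2.Kk.Coord

set_option autoImplicit false

open MeasureTheory Set Filter Topology ENNReal NNReal Metric

namespace Pool.Agent.H742R2.Kk

/-- The first basis vector. -/
noncomputable def e1 (m : ℕ) : E (m + 1) := ins 1 0

theorem norm_ins_sq {m : ℕ} (r : ℝ) (z : E m) : ‖ins r z‖ ^ 2 = r ^ 2 + ‖z‖ ^ 2 := by
  rw [← real_inner_self_eq_norm_sq, ← real_inner_self_eq_norm_sq, inner_ins]; ring

theorem norm_e1 (m : ℕ) : ‖e1 m‖ = 1 := by
  have h := norm_ins_sq (m := m) 1 0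
  rw [norm_zero] at h
  have h2 : ‖e1 m‖ ^ 2 = 1 := by rw [e1, h]; norm_num
  exact (pow_eq_one_iff_of_nonneg (norm_nonneg _) two_ne_zero).mp h2

theorem inner_e1 {m : ℕ} (p : E (m + 1)) : inner ℝ p (e1 m) = p 0 := by
  conv_lhs => rw [← ins_eta p, e1, inner_ins]
  simp

theorem exists_isometry {m : ℕ} (e : E (m + 1)) (he : ‖e‖ = 1) :
    ∃ U : E (m + 1) ≃ₗᵢ[ℝ] E (m + 1), U e = e1 m :=
  ⟨(ℝ ∙ (e - e1 m))ᗮ.reflection, Submodule.reflection_sub (by rw [he, norm_e1])⟩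

theorem perp_norm {m : ℕ} (p : E (m + 1)) : ‖p - (p 0) • e1 m‖ = ‖tl p‖ := by
  have h1 : p - (p 0) • e1 m = ins 0 (tl p) := by
    ext i
    refine Fin.cases ?_ (fun j => ?_) i
    · simp [e1, ins_apply_zero]
    · simp [e1, ins_apply_succ, tl]
  have h2 := norm_ins_sq (m := m) 0 (tl p)
  rw [← h1] at h2
  have h3 : ‖p - (p 0) • e1 m‖ ^ 2 = ‖tl p‖ ^ 2 := by rw [h2]; ring
  exact (pow_left_inj₀ (norm_nonneg _) (norm_nonneg _) two_ne_zero).mp h3

/-- Volume of a piece of a tube. -/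
theorem volume_piece {m : ℕ} (δ s t : ℝ) (e a : E (m + 1)) (he : ‖e‖ = 1) :
    volume {p : E (m + 1) | s ≤ inner ℝ p e ∧ inner ℝ p e ≤ t ∧
      ‖(p - a) - (inner ℝ (p - a) e : ℝ) • e‖ ≤ δ} =
      ENNReal.ofReal (t - s) * volume (closedBall (0 : E m) δ) := by
  obtain ⟨U, hU⟩ := exists_isometry e he
  have hi : ∀ p : E (m + 1), inner ℝ p e = (U p) 0 := by
    intro p
    rw [← U.inner_map_map p e, hU, inner_e1]
  have hn : ∀ p : E (m + 1), ‖(p - a) - (inner ℝ (p - a) e : ℝ) • e‖ = ‖tl (U p - U a)‖ := by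
    intro p
    rw [← U.norm_map, map_sub, map_smul, hU, hi, map_sub, perp_norm]
  have hset : {p : E (m + 1) | s ≤ inner ℝ p e ∧ inner ℝ p e ≤ t ∧
      ‖(p - a) - (inner ℝ (p - a) e : ℝ) • e‖ ≤ δ} =
      U ⁻¹' {q : E (m + 1) | s ≤ q 0 ∧ q 0 ≤ t ∧ ‖tl (q - U a)‖ ≤ δ} := by
    ext p
    simp only [mem_ofPred_eq, mem_preimage]
    rw [hn, hi]
  have hms : MeasurableSet {q : E (m + 1) | s ≤ q 0 ∧ q 0 ≤ t ∧ ‖tl (q - U a)‖ ≤ δ} := by
    apply (measurableSet_le measurable_const (measurable_apply 0)).inter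
    apply (measurableSet_le (measurable_apply 0) measurable_const).inter
    exact measurableSet_le ((measurable_tl.comp (measurable_id.sub_const _)).norm) measurable_const
  rw [hset, U.measurePreserving.measure_preimage hms.nullMeasurableSet,
    ← (measurePreserving_ins (k := m)).measure_preimage hms.nullMeasurableSet]
  have hset2 : (fun x : ℝ × E m => ins x.1 x.2) ⁻¹'
      {q : E (m + 1) | s ≤ q 0 ∧ q 0 ≤ t ∧ ‖tl (q - U a)‖ ≤ δ} =
      Icc s t ×ˢ closedBall (tl (U a)) δ := by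
    ext ⟨y, z⟩
    have h3 : tl (ins y z - U a) = z - tl (U a) := by
      ext i; simp [tl, ins]
    simp only [mem_preimage, mem_ofPred_eq, ins_apply_zero, h3, mem_prod, mem_Icc,
      mem_closedBall_iff_norm]
    tauto
  rw [hset2, Measure.volume_eq_prod, Measure.prod_prod, Real.volume_Icc,
    Measure.addHaar_closedBall_center]

/-- One-dimensional change of variables. -/
theorem lintegral_affine (a b : ℝ) (hb : 0 < b) {φ : ℝ → ℝ≥0∞} (hφ : Measurable φ) :
    ∫⁻ τ, φ (a + τ * b) = ENNReal.ofReal (1 / b) * ∫⁻ y, φ y := by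
  have h1 : ∫⁻ τ, φ (a + b * τ) = ∫⁻ y, φ (a + y) ∂(Measure.map (fun x => b * x) volume) := by
    have hm : Measurable (fun y => φ (a + y)) := hφ.comp (measurable_const_add a)
    rw [lintegral_map hm (measurable_const_mul b)]
  have h2 : ∫⁻ y, φ (a + y) = ∫⁻ y, φ y := lintegral_add_left_eq_self φ a
  simp only [mul_comm _ b]
  rw [h1, Real.map_volume_mul_left hb.ne', lintegral_smul_measure, h2, abs_of_pos (by positivity),
    one_div, smul_eq_mul]

theorem tub_proj (m : ℕ) : ∃ c : ℝ, 0 < c ∧ ∀ (δ : ℝ) (e a : E (m + 1)) (k : ℤ) (φ : ℝ → ℝ≥0∞),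
    0 < δ → δ < 1 → ‖e‖ = 1 → 0 < e 0 → Measurable φ →
    (ENNReal.ofReal δ ^ m)⁻¹ * ∫⁻ p in tub δ e a k, φ (p 0)
      ≤ ENNReal.ofReal (c / e 0) * ∫⁻ y, φ y := by
  set V : ℝ≥0∞ := volume (closedBall (0 : E m) 1) with hV
  have hVt : V ≠ ∞ := measure_closedBall_lt_top.ne
  have hV0 : V ≠ 0 := (measure_closedBall_pos volume _ one_pos).ne'
  have hVr : 0 < V.toReal := ENNReal.toReal_pos hV0 hVt
  refine ⟨2 * V.toReal, by positivity, ?_⟩
  intro δ e a k φ hδ hδ1 he he0 hφ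
  set T2 : Set (E (m + 1)) := {p | (k : ℝ) - 1 ≤ inner ℝ p e ∧ inner ℝ p e ≤ (k : ℝ) + 1 ∧
    ‖(p - a) - (inner ℝ (p - a) e : ℝ) • e‖ ≤ δ} with hT2
  have hinner : Measurable (fun p : E (m + 1) => inner ℝ p e) := by fun_prop
  have hperp : Measurable (fun p : E (m + 1) => ‖(p - a) - (inner ℝ (p - a) e : ℝ) • e‖) := by
    fun_prop
  have hT : MeasurableSet (tub δ e a k) := by
    unfold tub
    exact (measurableSet_le measurable_const hinner).inter
      ((measurableSet_le hinner measurable_const).inter (measurableSet_le hperp measurable_const))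
  have hT2m : MeasurableSet T2 :=
    (measurableSet_le measurable_const hinner).inter
      ((measurableSet_le hinner measurable_const).inter (measurableSet_le hperp measurable_const))
  -- translation
  have h1 : ∀ τ ∈ Icc (0 : ℝ) 1, ∫⁻ p in tub δ e a k, φ (p 0) ≤
      ∫⁻ q in T2, φ (q 0 + τ * e 0) := by
    intro τ hτ
    rw [← lintegral_indicator hT, ← lintegral_indicator hT2m,
      ← lintegral_add_right_eq_self _ (τ • e)]
    apply lintegral_mono
    intro q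
    by_cases hq : q + τ • e ∈ tub δ e a k
    · have hq2 : q ∈ T2 := by
        obtain ⟨h3, h4, h5⟩ := hq
        have h6 : inner ℝ (q + τ • e) e = inner ℝ q e + τ := by
          rw [inner_add_left, real_inner_smul_left, real_inner_self_eq_norm_sq, he]; ring
        have h7 : inner ℝ (q + τ • e - a) e = inner ℝ (q - a) e + τ := by
          rw [add_sub_right_comm, inner_add_left, real_inner_smul_left,
            real_inner_self_eq_norm_sq, he]; ring
        rw [h6] at h3 h4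
        refine ⟨by linarith [hτ.2], by linarith [hτ.1], ?_⟩
        have h8 : (q - a) - (inner ℝ (q - a) e : ℝ) • e =
            (q + τ • e - a) - (inner ℝ (q + τ • e - a) e : ℝ) • e := by
          rw [h7, add_smul]; abel
        rw [h8]; exact h5
      simp only [Set.indicator_of_mem hq, Set.indicator_of_mem hq2]
      simp
    · simp only [Set.indicator_of_notMem hq]
      exact zero_le
  have h2 : ∫⁻ p in tub δ e a k, φ (p 0) ≤
      ∫⁻ τ in Icc (0 : ℝ) 1, ∫⁻ q in T2, φ (q 0 + τ * e 0) := by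
    calc ∫⁻ p in tub δ e a k, φ (p 0)
        = ∫⁻ _ in Icc (0 : ℝ) 1, ∫⁻ p in tub δ e a k, φ (p 0) := by
          rw [lintegral_const]; simp
      _ ≤ _ := setLIntegral_mono' measurableSet_Icc h1
  have hswap : ∫⁻ τ in Icc (0 : ℝ) 1, ∫⁻ q in T2, φ (q 0 + τ * e 0) =
      ∫⁻ q in T2, ∫⁻ τ in Icc (0 : ℝ) 1, φ (q 0 + τ * e 0) := by
    apply lintegral_lintegral_swap
    apply Measurable.aemeasurable
    exact hφ.comp (((measurable_apply 0).comp measurable_snd).add
      (measurable_fst.mul_const _))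
  have h3 : ∀ q : E (m + 1), ∫⁻ τ in Icc (0 : ℝ) 1, φ (q 0 + τ * e 0) ≤
      ENNReal.ofReal (1 / e 0) * ∫⁻ y, φ y := by
    intro q
    rw [← lintegral_affine (q 0) (e 0) he0 hφ]
    exact setLIntegral_le_lintegral _ _
  have h4 : ∫⁻ p in tub δ e a k, φ (p 0) ≤
      volume T2 * (ENNReal.ofReal (1 / e 0) * ∫⁻ y, φ y) := by
    refine h2.trans ?_
    rw [hswap]
    calc ∫⁻ q in T2, ∫⁻ τ in Icc (0 : ℝ) 1, φ (q 0 + τ * e 0)
        ≤ ∫⁻ _ in T2, (ENNReal.ofReal (1 / e 0) * ∫⁻ y, φ y) := lintegral_mono h3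
      _ = volume T2 * (ENNReal.ofReal (1 / e 0) * ∫⁻ y, φ y) := by
          rw [lintegral_const, mul_comm]; simp
  have h5 : volume T2 = ENNReal.ofReal 2 * (ENNReal.ofReal δ ^ m * V) := by
    rw [hT2, volume_piece δ _ _ e a he]
    congr 1
    · congr 1; ring
    · rw [Measure.addHaar_closedBall' _ _ hδ.le, ENNReal.ofReal_pow hδ.le]
      simp [hV]
  rw [h5] at h4
  have hd0 : ENNReal.ofReal δ ^ m ≠ 0 := pow_ne_zero _ (by simpa using hδ)
  have hdt : ENNReal.ofReal δ ^ m ≠ ∞ := ENNReal.pow_ne_top ENNReal.ofReal_ne_top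
  calc (ENNReal.ofReal δ ^ m)⁻¹ * ∫⁻ p in tub δ e a k, φ (p 0)
      ≤ (ENNReal.ofReal δ ^ m)⁻¹ * (ENNReal.ofReal 2 * (ENNReal.ofReal δ ^ m * V) *
        (ENNReal.ofReal (1 / e 0) * ∫⁻ y, φ y)) := by gcongr
    _ = ((ENNReal.ofReal δ ^ m)⁻¹ * ENNReal.ofReal δ ^ m) * (ENNReal.ofReal 2 * V *
        ENNReal.ofReal (1 / e 0)) * ∫⁻ y, φ y := by ring
    _ = (ENNReal.ofReal 2 * V * ENNReal.ofReal (1 / e 0)) * ∫⁻ y, φ y := by
        rw [ENNReal.inv_mul_cancel hd0 hdt, one_mul]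
    _ = ENNReal.ofReal (2 * V.toReal / e 0) * ∫⁻ y, φ y := by
        congr 1
        rw [← ENNReal.ofReal_toReal hVt, ← ENNReal.ofReal_mul (by norm_num),
          ← ENNReal.ofReal_mul (by positivity), ENNReal.toReal_ofReal hVr.le]
        congr 1; ring

end Pool.Agent.H742R2.Kk
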